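import Pool.Agent.Lib.MP_6460d1_co.Proof

set_option autoImplicit false

namespace Pool.Agent.Results.MP_6460d1_co.ManyDegrees

open Pool.Agent.Lib.MP_6460d1_co

/-- For every `t ≥ 4` some 3-extremal split graph has exactly `t` distinct vertex degrees. -/
theorem result (t : ℕ) (ht : 4 ≤ t) :
    ∃ (V : Type) (_ : Fintype V) (_ : DecidableEq V) (G : SimpleGraph V) (_ : DecidableRel G.Adj),
      IsThreeExtremalSplit G ∧ (Finset.univ.image fun a => G.degree a).card = t :=
  main t ht

end Pool.Agent.Results.MP_6460d1_co.ManyDegrees
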